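import Mathlib

/-!
# Positive versus negative inertia of graphs: a polynomial bound has degree at least three

For every `α < 7/3` and every `C` there is a graph with `n⁺ > C (n⁻)^α`; so every polynomial `f` with
`n⁺(G) ≤ f(n⁻(G))` for all graphs has degree at least `3`.  In particular the absolute bound
`2 n⁺ ≤ n⁻ (n⁻ + 1)` of strongly regular graphs fails for general graphs.

The graphs: the vertices are the words `x` of length `7` over an alphabet with `m` letters, and the
adjacency of `x` and `y` depends on the set `Z` of the places where they agree: they are adjacent if `Z`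
contains more sets of the list `posSet` than triples of the list `negTriple` (the difference is always
`0` or `1`).  So the adjacency matrix is `∑ E_U - ∑ E_T` where `E_U` is the matrix of the equivalence
relation `x = y on U`, `U` runs through `6` pairs, `2` quadruples and the whole set, and `T` through `9`
triples.  All `E_U` are positive semidefinite and `rank E_T = m^3`, hence `n⁻ ≤ 9 m^3`; the functions with
vanishing sums over all lines in the seven directions are eigenvectors with the eigenvalue `1`, hence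
`n⁺ ≥ m^7 - 7 m^6`.
-/

set_option autoImplicit false

open Finset

namespace Pool.Agent.Results.MP_f59665_co.InertiaExponent

/-- The number `n⁺(G)` of positive eigenvalues of the adjacency matrix of `G`, counted with
multiplicity (as roots of the characteristic polynomial). -/
noncomputable def nPos {V : Type} [Fintype V] [DecidableEq V] (G : SimpleGraph V)
    [DecidableRel G.Adj] : ℕ :=
  ((G.adjMatrix ℝ).charpoly.roots.filter (fun x => 0 < x)).card

/-- The number `n⁻(G)` of negative eigenvalues of the adjacency matrix of `G`, counted with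
multiplicity. -/
noncomputable def nNeg {V : Type} [Fintype V] [DecidableEq V] (G : SimpleGraph V)
    [DecidableRel G.Adj] : ℕ :=
  ((G.adjMatrix ℝ).charpoly.roots.filter (fun x => x < 0)).card

section inertia

variable {V : Type} [Fintype V] [DecidableEq V]

open Matrix

/-- the quadratic form in the coordinates of the eigenvectors -/
theorem quad_eq {A : Matrix V V ℝ} (hA : A.IsHermitian) (f : V → ℝ) :
    f ⬝ᵥ (A *ᵥ f) = ∑ i, hA.eigenvalues i *
      ((star (hA.eigenvectorUnitary : Matrix V V ℝ)) *ᵥ f) i ^ 2 := by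
  set U : Matrix V V ℝ := (hA.eigenvectorUnitary : Matrix V V ℝ) with hU
  have h1 : A = U * diagonal hA.eigenvalues * star U := by
    have := hA.spectral_theorem
    rw [Unitary.conjStarAlgAut_apply] at this
    exact this
  have h2 : f ⬝ᵥ (A *ᵥ f) = (star U *ᵥ f) ⬝ᵥ (diagonal hA.eigenvalues *ᵥ (star U *ᵥ f)) := by
    conv_lhs => rw [h1]
    rw [← mulVec_mulVec, ← mulVec_mulVec, dotProduct_mulVec]
    congr 1
    rw [star_eq_conjTranspose, conjTranspose_eq_transpose_of_trivial, mulVec_transpose]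
  rw [h2, dotProduct]
  refine Finset.sum_congr rfl fun i _ => ?_
  rw [mulVec_diagonal]
  ring

theorem coord_inj {A : Matrix V V ℝ} (hA : A.IsHermitian) {f : V → ℝ}
    (h : (star (hA.eigenvectorUnitary : Matrix V V ℝ)) *ᵥ f = 0) : f = 0 := by
  have h1 : (hA.eigenvectorUnitary : Matrix V V ℝ) * star (hA.eigenvectorUnitary : Matrix V V ℝ) = 1 :=
    Unitary.coe_mul_star_self _
  have h2 := congrArg (fun g => (hA.eigenvectorUnitary : Matrix V V ℝ) *ᵥ g) h
  simp only [mulVec_mulVec, h1, one_mulVec, mulVec_zero] at h2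
  exact h2

/-- a subspace meets the span of many eigenvectors -/
theorem exists_mem {A : Matrix V V ℝ} (hA : A.IsHermitian) (S : Finset V)
    (K : Submodule ℝ (V → ℝ)) (h : Fintype.card V < S.card + Module.finrank ℝ K) :
    ∃ f ∈ K, f ≠ 0 ∧ ∀ i, i ∉ S →
      ((star (hA.eigenvectorUnitary : Matrix V V ℝ)) *ᵥ f) i = 0 := by
  let L : K →ₗ[ℝ] ({i // i ∉ S} → ℝ) :=
    { toFun := fun f i => ((star (hA.eigenvectorUnitary : Matrix V V ℝ)) *ᵥ (f : V → ℝ)) i
      map_add' := by intro a b; ext i; simp [mulVec_add]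
      map_smul' := by intro c a; ext i; simp [mulVec_smul] }
  have h1 : Module.finrank ℝ ({i // i ∉ S} → ℝ) < Module.finrank ℝ K := by
    rw [Module.finrank_fintype_fun_eq_card, Fintype.card_subtype_compl]
    have h2 : Fintype.card {x // x ∈ S} = S.card := by simp
    rw [h2]
    have h3 : S.card ≤ Fintype.card V := Finset.card_le_univ S
    omega
  have h2 := LinearMap.ker_ne_bot_of_finrank_lt (f := L) h1
  obtain ⟨f, hf, hf0⟩ := Submodule.exists_mem_ne_zero_of_ne_bot h2
  refine ⟨f, f.2, fun h => hf0 (Subtype.ext h), fun i hi => ?_⟩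
  have h3 := congrFun (LinearMap.mem_ker.1 hf) ⟨i, hi⟩
  exact h3

theorem roots_filter_card {A : Matrix V V ℝ} (hA : A.IsHermitian) (p : ℝ → Prop) [DecidablePred p] :
    (A.charpoly.roots.filter p).card = (univ.filter fun i => p (hA.eigenvalues i)).card := by
  rw [hA.roots_charpoly_eq_eigenvalues, Multiset.filter_map, Multiset.card_map]
  rfl

/-- if the form is nonnegative on `K`, the number of negative eigenvalues is at most the
codimension of `K` -/
theorem neg_le {A : Matrix V V ℝ} (hA : A.IsHermitian) (K : Submodule ℝ (V → ℝ))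
    (hK : ∀ f ∈ K, 0 ≤ f ⬝ᵥ (A *ᵥ f)) :
    (A.charpoly.roots.filter (fun x => x < 0)).card + Module.finrank ℝ K ≤ Fintype.card V := by
  rw [roots_filter_card hA]
  by_contra hcon
  push Not at hcon
  obtain ⟨f, hf, hf0, hz⟩ := exists_mem hA _ K hcon
  have h1 := hK f hf
  rw [quad_eq hA] at h1
  apply hf0
  apply coord_inj hA
  have h2 : ∀ i, hA.eigenvalues i * ((star (hA.eigenvectorUnitary : Matrix V V ℝ)) *ᵥ f) i ^ 2 ≤ 0 := by
    intro i
    by_cases hi : hA.eigenvalues i < 0
    · exact mul_nonpos_of_nonpos_of_nonneg hi.le (sq_nonneg _)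
    · rw [hz i (by simpa using hi)]; simp
  have h3 := (Finset.sum_eq_zero_iff_of_nonpos fun i _ => h2 i).1
    (le_antisymm (Finset.sum_nonpos fun i _ => h2 i) h1)
  ext i
  by_cases hi : hA.eigenvalues i < 0
  · have h4 := h3 i (mem_univ i)
    rcases mul_eq_zero.1 h4 with h5 | h5
    · exact absurd h5 hi.ne
    · simpa using h5
  · exact hz i (by simpa using hi)

/-- if the form is positive definite on `W`, there are at least `dim W` positive eigenvalues -/
theorem le_pos {A : Matrix V V ℝ} (hA : A.IsHermitian) (W : Submodule ℝ (V → ℝ))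
    (hW : ∀ f ∈ W, f ≠ 0 → 0 < f ⬝ᵥ (A *ᵥ f)) :
    Module.finrank ℝ W ≤ (A.charpoly.roots.filter (fun x => 0 < x)).card := by
  rw [roots_filter_card hA]
  by_contra hcon
  push Not at hcon
  have hc : (univ.filter fun i => 0 < hA.eigenvalues i).card +
      (univ.filter fun i => ¬ 0 < hA.eigenvalues i).card = Fintype.card V :=
    Finset.card_filter_add_card_filter_not _
  obtain ⟨f, hf, hf0, hz⟩ := exists_mem hA (univ.filter fun i => ¬ 0 < hA.eigenvalues i) W (by omega)
  have h1 := hW f hf hf0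
  rw [quad_eq hA] at h1
  refine absurd h1 (not_lt.2 (Finset.sum_nonpos fun i _ => ?_))
  by_cases hi : 0 < hA.eigenvalues i
  · rw [hz i (by simpa using hi)]; simp
  · exact mul_nonpos_of_nonpos_of_nonneg (not_lt.1 hi) (sq_nonneg _)

end inertia

/-! ### the graphs -/

/-- the sets with coefficient `1` -/
def posSet : Fin 9 → Finset (Fin 7) :=
  ![{2, 3}, {0, 4}, {1, 5}, {0, 6}, {1, 6}, {2, 6}, {0, 1, 2, 6}, {3, 4, 5, 6}, univ]

/-- the triples with coefficient `-1` -/
def negTriple : Fin 9 → Fin 3 → Fin 7 :=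
  ![![2, 3, 4], ![1, 3, 5], ![0, 4, 5], ![0, 1, 6], ![0, 2, 6], ![1, 2, 6], ![2, 3, 6], ![0, 4, 6],
    ![1, 5, 6]]

/-- number of the sets `posSet j` contained in `Z` -/
def cntPos (Z : Finset (Fin 7)) : ℕ := (univ.filter fun j => posSet j ⊆ Z).card

/-- number of the triples `negTriple j` contained in `Z` -/
def cntNeg (Z : Finset (Fin 7)) : ℕ := (univ.filter fun j => ∀ k, negTriple j k ∈ Z).card

theorem cnt : ∀ Z : Finset (Fin 7), cntPos Z = cntNeg Z ∨ cntPos Z = cntNeg Z + 1 := by
  decide +kernel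

theorem cnt_univ : cntPos univ ≠ cntNeg univ + 1 := by decide +kernel

/-- the set of the places where `x` and `y` agree -/
def agree {m : ℕ} (x y : Fin 7 → Fin m) : Finset (Fin 7) := univ.filter fun i => x i = y i

theorem agree_comm {m : ℕ} (x y : Fin 7 → Fin m) : agree x y = agree y x := by
  unfold agree
  congr 1
  ext i
  exact eq_comm

theorem agree_self {m : ℕ} (x : Fin 7 → Fin m) : agree x x = univ := by
  simp [agree]

/-- The graph: words of length `7`, adjacent if the set of the places where they agree contains one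
more set of the list `posSet` than of the list `negTriple`. -/
def gr (m : ℕ) : SimpleGraph (Fin 7 → Fin m) where
  Adj x y := cntPos (agree x y) = cntNeg (agree x y) + 1
  symm := ⟨fun x y h => by
    rw [agree_comm y x]
    exact h⟩
  loopless := ⟨fun x h => by
    rw [agree_self] at h
    exact cnt_univ h⟩

instance (m : ℕ) : DecidableRel (gr m).Adj := fun x y =>
  inferInstanceAs (Decidable (cntPos (agree x y) = cntNeg (agree x y) + 1))

/-- the adjacency matrix is a signed sum of equivalence relations -/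
theorem adj_eq {m : ℕ} (x y : Fin 7 → Fin m) : (gr m).adjMatrix ℝ x y =
    (∑ j, if posSet j ⊆ agree x y then (1 : ℝ) else 0) -
      ∑ j, if x ∘ negTriple j = y ∘ negTriple j then (1 : ℝ) else 0 := by
  have h1 : (∑ j, if posSet j ⊆ agree x y then (1 : ℝ) else 0) = cntPos (agree x y) := by
    rw [cntPos, Finset.sum_boole]
  have h2 : (∑ j, if x ∘ negTriple j = y ∘ negTriple j then (1 : ℝ) else 0) = cntNeg (agree x y) := by
    rw [cntNeg, Finset.sum_boole]
    congr 2
    ext j
    simp [agree, funext_iff]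
  rw [h1, h2, SimpleGraph.adjMatrix_apply]
  have h3 : (gr m).Adj x y ↔ cntPos (agree x y) = cntNeg (agree x y) + 1 := Iff.rfl
  rcases cnt (agree x y) with h | h
  · rw [if_neg (by rw [h3, h]; omega), h, sub_self]
  · rw [if_pos (h3.2 h), h]; push_cast; ring

open Matrix

/-- the form of an equivalence relation -/
theorem quad_fiber {X B : Type*} [Fintype X] [Fintype B] [DecidableEq B] (π : X → B) (f : X → ℝ) :
    ∑ x, ∑ y, f x * ((if π x = π y then (1 : ℝ) else 0) * f y) =
      ∑ b, (∑ x, if π x = b then f x else 0) ^ 2 := by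
  have h1 : ∀ b : B, (∑ x, if π x = b then f x else 0) ^ 2 =
      ∑ x, ∑ y, (if π x = b then f x else 0) * (if π y = b then f y else 0) := by
    intro b
    rw [sq, Finset.sum_mul_sum]
  have h2 : (∑ b, ∑ x, ∑ y, (if π x = b then f x else 0) * (if π y = b then f y else 0)) =
      ∑ x, ∑ y, ∑ b, (if π x = b then f x else 0) * (if π y = b then f y else 0) := by
    rw [Finset.sum_comm]
    exact Finset.sum_congr rfl fun x _ => Finset.sum_comm
  rw [Finset.sum_congr rfl fun b _ => h1 b, h2]
  refine Finset.sum_congr rfl fun x _ => Finset.sum_congr rfl fun y _ => ?_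
  rw [Finset.sum_eq_single (π x)]
  · by_cases h : π x = π y
    · simp [h]
    · have h' : π y ≠ π x := fun e => h e.symm
      simp [h, h']
  · intro b _ hb
    simp [Ne.symm hb]
  · intro h; exact absurd (mem_univ _) h

/-- the form of the adjacency matrix -/
theorem quad_gr {m : ℕ} (f : (Fin 7 → Fin m) → ℝ) :
    f ⬝ᵥ ((gr m).adjMatrix ℝ *ᵥ f) =
      (∑ j, ∑ b : posSet j → Fin m, (∑ x : Fin 7 → Fin m,
        if (fun i : posSet j => x i) = b then f x else 0) ^ 2) -
        ∑ j, ∑ b : Fin 3 → Fin m, (∑ x : Fin 7 → Fin m,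
          if x ∘ negTriple j = b then f x else 0) ^ 2 := by
  have h1 : f ⬝ᵥ ((gr m).adjMatrix ℝ *ᵥ f) = ∑ x, ∑ y, f x *
      (((∑ j, if posSet j ⊆ agree x y then (1 : ℝ) else 0) -
      ∑ j, if x ∘ negTriple j = y ∘ negTriple j then (1 : ℝ) else 0) * f y) := by
    simp only [dotProduct, mulVec, adj_eq, Finset.mul_sum]
  rw [h1]
  have h2 : ∀ (x y : Fin 7 → Fin m) (j : Fin 9), posSet j ⊆ agree x y ↔
      (fun i : posSet j => x i) = fun i : posSet j => y i := by
    intro x y j
    rw [funext_iff]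
    constructor
    · intro h i
      have := h i.2
      simpa [agree] using this
    · intro h i hi
      simpa [agree] using h ⟨i, hi⟩
  simp only [h2, sub_mul, mul_sub, Finset.sum_sub_distrib, Finset.sum_mul, Finset.mul_sum]
  congr 1
  · have e : ∀ x : Fin 7 → Fin m, (∑ y, ∑ j, f x *
        ((if (fun i : posSet j => x i) = (fun i : posSet j => y i) then (1 : ℝ) else 0) * f y)) =
        ∑ j, ∑ y, f x *
        ((if (fun i : posSet j => x i) = (fun i : posSet j => y i) then (1 : ℝ) else 0) * f y) :=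
      fun x => Finset.sum_comm
    rw [Finset.sum_congr rfl fun x _ => e x, Finset.sum_comm]
    refine Finset.sum_congr rfl fun j _ => ?_
    exact quad_fiber (fun (x : Fin 7 → Fin m) (i : posSet j) => x i) f
  · have e : ∀ x : Fin 7 → Fin m, (∑ y, ∑ j, f x *
        ((if x ∘ negTriple j = y ∘ negTriple j then (1 : ℝ) else 0) * f y)) =
        ∑ j, ∑ y, f x * ((if x ∘ negTriple j = y ∘ negTriple j then (1 : ℝ) else 0) * f y) :=
      fun x => Finset.sum_comm
    rw [Finset.sum_congr rfl fun x _ => e x, Finset.sum_comm]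
    refine Finset.sum_congr rfl fun j _ => ?_
    exact quad_fiber (fun (x : Fin 7 → Fin m) => x ∘ negTriple j) f

/-- the nine families of marginals -/
noncomputable def marg (m : ℕ) : ((Fin 7 → Fin m) → ℝ) →ₗ[ℝ] (Fin 9 × (Fin 3 → Fin m) → ℝ) where
  toFun f p := ∑ x, if x ∘ negTriple p.1 = p.2 then f x else 0
  map_add' := by
    intro f g
    ext p
    simp only [Pi.add_apply, ← Finset.sum_add_distrib]
    exact Finset.sum_congr rfl fun x _ => by split_ifs <;> simp
  map_smul' := by
    intro c f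
    ext p
    simp only [Pi.smul_apply, smul_eq_mul, RingHom.id_apply, Finset.mul_sum]
    exact Finset.sum_congr rfl fun x _ => by split_ifs <;> simp

/-- the sums over the lines -/
noncomputable def lines (m : ℕ) : ((Fin 7 → Fin m) → ℝ) →ₗ[ℝ] (Fin 7 × (Fin 6 → Fin m) → ℝ) where
  toFun f p := ∑ a, f (p.1.insertNth a p.2)
  map_add' := by
    intro f g
    ext p
    simp [Finset.sum_add_distrib]
  map_smul' := by
    intro c f
    ext p
    simp [Finset.mul_sum]

theorem card_le_ker {X Y : Type} [Fintype X] [Fintype Y] (L : (X → ℝ) →ₗ[ℝ] (Y → ℝ)) :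
    Fintype.card X ≤ Fintype.card Y + Module.finrank ℝ (LinearMap.ker L) := by
  have h1 := LinearMap.finrank_range_add_finrank_ker L
  have h2 : Module.finrank ℝ (LinearMap.range L) ≤ Module.finrank ℝ (Y → ℝ) :=
    Submodule.finrank_le _
  rw [Module.finrank_fintype_fun_eq_card] at h1 h2
  omega

theorem nNeg_le (m : ℕ) : nNeg (gr m) ≤ 9 * m ^ 3 := by
  have h1 := neg_le ((gr m).isHermitian_adjMatrix ℝ) (LinearMap.ker (marg m)) (by
    intro f hf
    rw [quad_gr]
    have h2 : ∑ j, ∑ b : Fin 3 → Fin m, (∑ x, if x ∘ negTriple j = b then f x else 0) ^ 2 = 0 := by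
      refine Finset.sum_eq_zero fun j _ => Finset.sum_eq_zero fun b _ => ?_
      have h3 : (∑ x, if x ∘ negTriple j = b then f x else 0) = 0 :=
        congrFun (LinearMap.mem_ker.1 hf) (j, b)
      rw [h3]; norm_num
    rw [h2, sub_zero]
    exact Finset.sum_nonneg fun j _ => Finset.sum_nonneg fun b _ => sq_nonneg _)
  have h2 := card_le_ker (marg m)
  have h3 : Fintype.card (Fin 9 × (Fin 3 → Fin m)) = 9 * m ^ 3 := by simp
  unfold nNeg
  omega

/-- all partial sums vanish if the sums over the lines vanish -/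
theorem sum_zero {m : ℕ} {f : (Fin 7 → Fin m) → ℝ} (hf : f ∈ LinearMap.ker (lines m))
    (P : (Fin 7 → Fin m) → Prop) [DecidablePred P] (j : Fin 7)
    (hP : ∀ (b : Fin 6 → Fin m) (a a' : Fin m), P (j.insertNth a b) → P (j.insertNth a' b)) :
    (∑ x, if P x then f x else 0) = 0 := by
  rw [← (Fin.insertNthEquiv (fun _ => Fin m) j).sum_comp, Fintype.sum_prod_type, Finset.sum_comm]
  refine Finset.sum_eq_zero fun b _ => ?_
  have h1 : ∑ a, f (j.insertNth a b) = 0 := congrFun (LinearMap.mem_ker.1 hf) (j, b)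
  show ∑ a, (if P (j.insertNth a b) then f (j.insertNth a b) else 0) = 0
  by_cases h : ∃ a : Fin m, P (j.insertNth a b)
  · obtain ⟨a₀, ha₀⟩ := h
    rw [← h1]
    exact Finset.sum_congr rfl fun a _ => if_pos (hP b a₀ a ha₀)
  · push Not at h
    exact Finset.sum_eq_zero fun a _ => if_neg (h a)

theorem le_nPos (m : ℕ) : m ^ 7 ≤ nPos (gr m) + 7 * m ^ 6 := by
  have h1 := le_pos ((gr m).isHermitian_adjMatrix ℝ) (LinearMap.ker (lines m)) (by
    intro f hf hf0
    rw [quad_gr]
    have h2 : ∑ j, ∑ b : Fin 3 → Fin m, (∑ x, if x ∘ negTriple j = b then f x else 0) ^ 2 = 0 := by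
      refine Finset.sum_eq_zero fun j _ => Finset.sum_eq_zero fun b _ => ?_
      have hj : ∃ i, ∀ k, negTriple j k ≠ i := by revert j; decide +kernel
      obtain ⟨i, hi⟩ := hj
      rw [sum_zero hf (fun x => x ∘ negTriple j = b) i (fun c a a' h => by
        rw [← h]
        funext k
        have hk := hi k
        obtain ⟨l, hl⟩ := Fin.exists_succAbove_eq hk
        simp [Function.comp, ← hl])]
      norm_num
    rw [h2, sub_zero]
    have hx : ∃ x, f x ≠ 0 := by
      by_contra h
      push Not at h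
      exact hf0 (funext h)
    obtain ⟨x₀, hx₀⟩ := hx
    refine Finset.sum_pos' (fun j _ => Finset.sum_nonneg fun b _ => sq_nonneg _) ⟨8, mem_univ _, ?_⟩
    refine Finset.sum_pos' (fun b _ => sq_nonneg _) ⟨fun i : posSet 8 => x₀ i, mem_univ _, ?_⟩
    have h3 : (∑ x, if (fun i : posSet 8 => x i) = (fun i : posSet 8 => x₀ i) then f x else 0) = f x₀ := by
      rw [Finset.sum_eq_single x₀]
      · simp
      · intro x _ hne
        refine if_neg fun h => hne (funext fun i => ?_)
        exact congrFun h ⟨i, by revert i; decide +kernel⟩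
      · intro h; exact absurd (mem_univ _) h
    rw [h3]
    positivity)
  have h2 := card_le_ker (lines m)
  have h3 : Fintype.card (Fin 7 × (Fin 6 → Fin m)) = 7 * m ^ 6 := by simp
  have h4 : Fintype.card (Fin 7 → Fin m) = m ^ 7 := by simp
  unfold nPos
  omega

/-- **A polynomial bound of `n⁺` in terms of `n⁻` has degree at least three.** -/
theorem result :
    (∀ α C : ℝ, 0 ≤ α → α < 7 / 3 → ∃ (V : Type) (_ : Fintype V) (_ : DecidableEq V)
      (G : SimpleGraph V) (_ : DecidableRel G.Adj), C * (nNeg G : ℝ) ^ α < nPos G) ∧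
    ∀ f : Polynomial ℝ,
      (∀ (V : Type) [Fintype V] [DecidableEq V] (G : SimpleGraph V) [DecidableRel G.Adj],
        (nPos G : ℝ) ≤ f.eval (nNeg G : ℝ)) → 3 ≤ f.natDegree := by
  have hexp : ∀ α C : ℝ, 0 ≤ α → α < 7 / 3 → ∃ (V : Type) (_ : Fintype V) (_ : DecidableEq V)
      (G : SimpleGraph V) (_ : DecidableRel G.Adj), C * (nNeg G : ℝ) ^ α < nPos G := by
    intro α C hα0 hα
    have ht : Filter.Tendsto (fun m : ℕ => (m : ℝ) ^ (7 - 3 * α)) Filter.atTop Filter.atTop :=
      (tendsto_rpow_atTop (by linarith)).comp tendsto_natCast_atTop_atTop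
    obtain ⟨m, hm1, hm2⟩ := ((ht.eventually_gt_atTop (2 * (|C| * 9 ^ α))).and
      (Filter.eventually_ge_atTop 14)).exists
    refine ⟨Fin 7 → Fin m, inferInstance, inferInstance, gr m, inferInstance, ?_⟩
    have hm0 : (0 : ℝ) < m := by
      have : 0 < m := by omega
      exact_mod_cast this
    have hm14 : (14 : ℝ) ≤ m := by exact_mod_cast hm2
    have h1 : (nNeg (gr m) : ℝ) ≤ 9 * (m : ℝ) ^ 3 := by exact_mod_cast nNeg_le m
    have h2 : (m : ℝ) ^ 7 ≤ nPos (gr m) + 7 * (m : ℝ) ^ 6 := by exact_mod_cast le_nPos m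
    have h3 : (nNeg (gr m) : ℝ) ^ α ≤ 9 ^ α * (m : ℝ) ^ (3 * α) := by
      refine (Real.rpow_le_rpow (Nat.cast_nonneg _) h1 hα0).trans (le_of_eq ?_)
      rw [Real.mul_rpow (by norm_num) (by positivity), Real.rpow_mul hm0.le]
      norm_num
    have h4 : (m : ℝ) ^ 7 = (m : ℝ) ^ (7 - 3 * α) * (m : ℝ) ^ (3 * α) := by
      rw [← Real.rpow_add hm0, sub_add_cancel]
      norm_num
    have hp : 0 < (m : ℝ) ^ (3 * α) := Real.rpow_pos_of_pos hm0 _
    have h5 : C * (nNeg (gr m) : ℝ) ^ α ≤ |C| * 9 ^ α * (m : ℝ) ^ (3 * α) := by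
      have e1 : C * (nNeg (gr m) : ℝ) ^ α ≤ |C| * (nNeg (gr m) : ℝ) ^ α :=
        mul_le_mul_of_nonneg_right (le_abs_self C) (Real.rpow_nonneg (Nat.cast_nonneg _) _)
      have e2 := mul_le_mul_of_nonneg_left h3 (abs_nonneg C)
      linarith
    have h6 : 2 * (|C| * 9 ^ α) * (m : ℝ) ^ (3 * α) < (m : ℝ) ^ 7 := by
      rw [h4]
      exact mul_lt_mul_of_pos_right hm1 hp
    have h7 : 7 * (m : ℝ) ^ 6 ≤ (m : ℝ) ^ 7 / 2 := by
      have : (m : ℝ) ^ 7 = m * (m : ℝ) ^ 6 := by ring
      rw [this]
      nlinarith [pow_pos hm0 6]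
    linarith
  refine ⟨hexp, fun f hf => ?_⟩
  by_contra hdeg
  push Not at hdeg
  set C : ℝ := |f.coeff 0| + |f.coeff 1| + |f.coeff 2| with hC
  have hC0 : 0 ≤ C := by positivity
  obtain ⟨m, hm⟩ := exists_nat_gt (100 * C + 7)
  have hm7 : (7 : ℝ) < m := by linarith
  have hm0 : (0 : ℝ) < m := by linarith
  have h1 : (nNeg (gr m) : ℝ) ≤ 9 * (m : ℝ) ^ 3 := by exact_mod_cast nNeg_le m
  have h2 : (m : ℝ) ^ 7 ≤ nPos (gr m) + 7 * (m : ℝ) ^ 6 := by exact_mod_cast le_nPos m
  have h3 := hf _ (gr m)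
  set k : ℝ := (nNeg (gr m) : ℝ) with hk
  have hk0 : 0 ≤ k := Nat.cast_nonneg _
  have h4 : f.eval k = f.coeff 0 + f.coeff 1 * k + f.coeff 2 * k ^ 2 := by
    rw [Polynomial.eval_eq_sum_range' (n := 3) (by omega)]
    simp [Finset.sum_range_succ]
  have hm3 : (1 : ℝ) ≤ (m : ℝ) ^ 3 := one_le_pow₀ (by linarith)
  have h5 : k + 1 ≤ 10 * (m : ℝ) ^ 3 := by linarith
  have h6 : f.eval k ≤ C * (k + 1) ^ 2 := by
    rw [h4]
    have e0 : f.coeff 0 ≤ |f.coeff 0| * (k + 1) ^ 2 := by
      nlinarith [le_abs_self (f.coeff 0), abs_nonneg (f.coeff 0),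
        mul_nonneg (abs_nonneg (f.coeff 0)) hk0, mul_nonneg (abs_nonneg (f.coeff 0)) (sq_nonneg k)]
    have e1 : f.coeff 1 * k ≤ |f.coeff 1| * (k + 1) ^ 2 := by
      have a1 : f.coeff 1 * k ≤ |f.coeff 1| * k := mul_le_mul_of_nonneg_right (le_abs_self _) hk0
      have a2 : |f.coeff 1| * k ≤ |f.coeff 1| * (k + 1) ^ 2 :=
        mul_le_mul_of_nonneg_left (by nlinarith) (abs_nonneg _)
      linarith
    have e2 : f.coeff 2 * k ^ 2 ≤ |f.coeff 2| * (k + 1) ^ 2 := by
      have a1 : f.coeff 2 * k ^ 2 ≤ |f.coeff 2| * k ^ 2 :=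
        mul_le_mul_of_nonneg_right (le_abs_self _) (sq_nonneg k)
      have a2 : |f.coeff 2| * k ^ 2 ≤ |f.coeff 2| * (k + 1) ^ 2 :=
        mul_le_mul_of_nonneg_left (by nlinarith) (abs_nonneg _)
      linarith
    rw [hC]
    linarith
  have h7 : (k + 1) ^ 2 ≤ 100 * (m : ℝ) ^ 6 := by
    calc (k + 1) ^ 2 ≤ (10 * (m : ℝ) ^ 3) ^ 2 := pow_le_pow_left₀ (by linarith) h5 2
      _ = 100 * (m : ℝ) ^ 6 := by ring
  have h8 : C * (k + 1) ^ 2 ≤ C * (100 * (m : ℝ) ^ 6) := mul_le_mul_of_nonneg_left h7 hC0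
  have h9 : (100 * C + 7) * (m : ℝ) ^ 6 < m * (m : ℝ) ^ 6 :=
    mul_lt_mul_of_pos_right hm (by positivity)
  have h10 : (m : ℝ) ^ 7 = m * (m : ℝ) ^ 6 := by ring
  linarith

end Pool.Agent.Results.MP_f59665_co.InertiaExponent
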